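import Pool.Agent.H20.QK

namespace Pool.Agent.Results.MP_32aa3b_co.Larger
open Pool.Agent.H20

theorem result : ∃ (δ : ℕ) (V : Type) (_ : Fintype V) (D : Digraph V), 1 ≤ δ ∧
    (∀ v, ¬ D.Adj v v) ∧ (∀ v, δ ≤ inDeg D v) ∧ (∃ v, inDeg D v = δ) ∧
    ∀ Q : Finset V, IsQKernel D 3 Q → Fintype.card V < (δ + 1) * Q.card := by
  obtain ⟨K, hK⟩ : ∃ K, Fintype.card (QK.T3 1000 50000) = K := ⟨_, rfl⟩
  obtain ⟨s, hs⟩ : ∃ s, s = K * 2000 + 1 := ⟨_, rfl⟩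
  refine ⟨2 * (25000 * s) - 1, QK.W 1000 50000 (25000 * s) s 2000, inferInstance,
    QK.D 1000 50000 (25000 * s) s 2000, by omega, QK.irr, ?_,
    ⟨.inl ((0, 0), ⟨0, by omega⟩), ?_⟩, fun Q hQ => ?_⟩
  · rintro (x | x | x)
    · have := QK.deg1 (m := 50000) (s := s) (k := 2000) x
      omega
    · rw [QK.deg2]; omega
    · rw [QK.deg3]; omega
  · have := QK.deg1 (m := 50000) (s := s) (k := 2000)
      ((((0 : Fin 1000), (0 : Fin 3)), ⟨0, by omega⟩) : QK.T1 1000 × Fin (25000 * s))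
    omega
  · have := QK.main K s hK hs Q hQ
    rwa [show 2 * (25000 * s) - 1 + 1 = 2 * (25000 * s) by omega]

end Pool.Agent.Results.MP_32aa3b_co.Larger
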